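import Mathlib
import Pool.Agent.W787.KG.Defs

open MeasureTheory Set Metric Filter Topology Real

noncomputable section

namespace Pool.Agent.W230.KG

open Pool.Agent.W787.KG

/-- the three factors -/
lemma n0_prod (A L : ℝ) (x : E) : n0 A L x =
    (A * (Real.sqrt π) ^ 3 * Real.exp (-(1 / 4) * (x 0) ^ 2)) * Real.exp (-(1 / 4) * (x 1) ^ 2)
      * Real.exp (-(1 / (4 * L ^ 2)) * (x 2) ^ 2) := by
  unfold n0
  have e : Real.exp (-((x 0) ^ 2 + (x 1) ^ 2) / 4 - (x 2) ^ 2 / (4 * L ^ 2)) =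
      Real.exp (-(1 / 4) * (x 0) ^ 2) * Real.exp (-(1 / 4) * (x 1) ^ 2)
        * Real.exp (-(1 / (4 * L ^ 2)) * (x 2) ^ 2) := by
    rw [← Real.exp_add, ← Real.exp_add]
    congr 1
    ring
  rw [e]
  ring

lemma nsq (x : E) : ‖x‖ ^ 2 = (x 0) ^ 2 + (x 1) ^ 2 + (x 2) ^ 2 := by
  rw [EuclideanSpace.norm_sq_eq, Fin.sum_univ_three]
  simp only [Real.norm_eq_abs, sq_abs]

lemma int_sq (c : ℝ) (hc : 0 < c) : Integrable (fun z : ℝ => z ^ 2 * Real.exp (-c * z ^ 2)) := by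
  have h := integrable_rpow_mul_exp_neg_mul_sq hc (s := 2) (by norm_num)
  refine h.congr (Filter.Eventually.of_forall (fun z => ?_))
  simp only [Real.rpow_two]

theorem da2 (h3 : S_PR) : S_DA2 := by
  intro A L hA hL
  have hL0 : 0 < L := by linarith
  have hc : (0 : ℝ) < 1 / 4 := by norm_num
  have hd : (0 : ℝ) < 1 / (4 * L ^ 2) := by positivity
  have i0 := (integrable_exp_neg_mul_sq hc).const_mul (A * (Real.sqrt π) ^ 3)
  have i1 := integrable_exp_neg_mul_sq hc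
  have i2 := integrable_exp_neg_mul_sq hd
  have j0 := (int_sq (1 / 4) hc).const_mul (A * (Real.sqrt π) ^ 3)
  have j1 := int_sq (1 / 4) hc
  have j2 := int_sq (1 / (4 * L ^ 2)) hd
  obtain ⟨a1, a2⟩ := h3.1 _ _ _ i0 i1 i2
  refine ⟨?_, ?_, ?_, ?_, ?_, ?_⟩
  · unfold n0
    fun_prop
  · intro x
    unfold n0
    positivity
  · refine ⟨A * (Real.sqrt π) ^ 3, fun x => ?_⟩
    unfold n0
    have h1 : Real.exp (-((x 0) ^ 2 + (x 1) ^ 2) / 4 - (x 2) ^ 2 / (4 * L ^ 2)) ≤ 1 := by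
      rw [Real.exp_le_one_iff]
      have : 0 ≤ (x 2) ^ 2 / (4 * L ^ 2) := by positivity
      nlinarith [sq_nonneg (x 0), sq_nonneg (x 1)]
    have h2 : 0 ≤ A * (Real.sqrt π) ^ 3 := by positivity
    calc A * (Real.sqrt π) ^ 3 * _ ≤ A * (Real.sqrt π) ^ 3 * 1 :=
          mul_le_mul_of_nonneg_left h1 h2
      _ = A * (Real.sqrt π) ^ 3 := mul_one _
  · refine a1.congr (Filter.Eventually.of_forall (fun x => ?_))
    simp only [n0_prod]
  · have b0 := (h3.1 _ _ _ j0 i1 i2).1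
    have b1 := (h3.1 _ _ _ i0 j1 i2).1
    have b2 := (h3.1 _ _ _ i0 i1 j2).1
    refine ((b0.add b1).add b2).congr (Filter.Eventually.of_forall (fun x => ?_))
    simp only [n0_prod, nsq, Pi.add_apply]
    ring
  · have e1 : ∫ x, n0 A L x = ∫ ξ : E, (A * (Real.sqrt π) ^ 3 * Real.exp (-(1 / 4) * (ξ 0) ^ 2))
        * Real.exp (-(1 / 4) * (ξ 1) ^ 2) * Real.exp (-(1 / (4 * L ^ 2)) * (ξ 2) ^ 2) := by
      congr 1
      funext x
      exact n0_prod A L x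
    rw [e1, a2, integral_const_mul, integral_gaussian, integral_gaussian]
    have s1 : Real.sqrt (π / (1 / 4)) = 2 * Real.sqrt π := by
      have : π / (1 / 4) = 2 ^ 2 * π := by ring
      rw [this, Real.sqrt_mul (by norm_num), Real.sqrt_sq (by norm_num)]
    have s2 : Real.sqrt (π / (1 / (4 * L ^ 2))) = 2 * L * Real.sqrt π := by
      have : π / (1 / (4 * L ^ 2)) = (2 * L) ^ 2 * π := by
        field_simp
        ring
      rw [this, Real.sqrt_mul (by positivity), Real.sqrt_sq (by positivity)]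
    rw [s1, s2]
    have s3 : Real.sqrt π ^ 2 = π := Real.sq_sqrt Real.pi_pos.le
    calc A * Real.sqrt π ^ 3 * (2 * Real.sqrt π) * (2 * Real.sqrt π) * (2 * L * Real.sqrt π)
        = 8 * (Real.sqrt π ^ 2) ^ 3 * A * L := by ring
      _ = 8 * π ^ 3 * A * L := by rw [s3]

lemma gbound (r : ℝ) (hr : 0 ≤ r) : Real.exp (-r ^ 2) ≤ 216 * (1 / (1 + r) ^ 6) := by
  have h1 : 1 + r ^ 2 / 3 ≤ Real.exp (r ^ 2 / 3) := by
    have := Real.add_one_le_exp (r ^ 2 / 3)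
    linarith
  have h2 : (1 + r) ^ 2 ≤ 6 * (1 + r ^ 2 / 3) := by nlinarith [sq_nonneg (r - 1)]
  have h3 : (1 + r) ^ 2 ≤ 6 * Real.exp (r ^ 2 / 3) := by linarith
  have h4 : (1 + r) ^ 6 ≤ 216 * Real.exp (r ^ 2) := by
    calc (1 + r) ^ 6 = ((1 + r) ^ 2) ^ 3 := by ring
      _ ≤ (6 * Real.exp (r ^ 2 / 3)) ^ 3 := pow_le_pow_left₀ (by positivity) h3 3
      _ = 216 * (Real.exp (r ^ 2 / 3)) ^ 3 := by ring
      _ = 216 * Real.exp (r ^ 2) := by
          rw [← Real.exp_nat_mul]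
          congr 2
          push_cast
          ring
  have h5 : 0 < (1 + r) ^ 6 := by positivity
  rw [mul_one_div, le_div_iff₀ h5]
  have h6 : Real.exp (-r ^ 2) * Real.exp (r ^ 2) = 1 := by
    rw [← Real.exp_add]
    simp
  have h7 : 0 < Real.exp (-r ^ 2) := Real.exp_pos _
  calc Real.exp (-r ^ 2) * (1 + r) ^ 6 ≤ Real.exp (-r ^ 2) * (216 * Real.exp (r ^ 2)) :=
        mul_le_mul_of_nonneg_left h4 h7.le
    _ = 216 * (Real.exp (-r ^ 2) * Real.exp (r ^ 2)) := by ring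
    _ = 216 := by rw [h6, mul_one]

theorem da3 : S_DA3 := by
  refine ⟨216 ^ 3, by norm_num, ?_⟩
  intro A L t ξ hA hL ht
  have hL0 : 0 < L := by linarith
  have hσ : 0 ≤ Real.sqrt (t + 1) := Real.sqrt_nonneg _
  have hσ2 : Real.sqrt (t + 1) ^ 2 = t + 1 := Real.sq_sqrt (by linarith)
  have k0 := gbound (Real.sqrt (t + 1) * |ξ 0|) (by positivity)
  have k1 := gbound (Real.sqrt (t + 1) * |ξ 1|) (by positivity)
  have k2 := gbound (L * |ξ 2|) (by positivity)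
  rw [mul_pow, hσ2, sq_abs] at k0 k1
  rw [mul_pow, sq_abs] at k2
  have hexp : Real.exp (-t * ‖ξ‖ ^ 2) * Real.exp (-(ξ 0) ^ 2 - (ξ 1) ^ 2 - L ^ 2 * (ξ 2) ^ 2) ≤
      Real.exp (-((t + 1) * (ξ 0) ^ 2)) * Real.exp (-((t + 1) * (ξ 1) ^ 2)) *
        Real.exp (-(L ^ 2 * (ξ 2) ^ 2)) := by
    rw [← Real.exp_add, ← Real.exp_add, ← Real.exp_add, Real.exp_le_exp, nsq]
    nlinarith [mul_nonneg ht (sq_nonneg (ξ 2))]
  have hf : |f0 A L ξ| = A * L * Real.exp (-(ξ 0) ^ 2 - (ξ 1) ^ 2 - L ^ 2 * (ξ 2) ^ 2) := by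
    unfold f0
    exact abs_of_nonneg (by positivity)
  have hprod : Real.exp (-((t + 1) * (ξ 0) ^ 2)) * Real.exp (-((t + 1) * (ξ 1) ^ 2)) *
        Real.exp (-(L ^ 2 * (ξ 2) ^ 2)) ≤
      (216 * (1 / (1 + Real.sqrt (t + 1) * |ξ 0|) ^ 6)) *
        (216 * (1 / (1 + Real.sqrt (t + 1) * |ξ 1|) ^ 6)) *
        (216 * (1 / (1 + L * |ξ 2|) ^ 6)) := by
    apply mul_le_mul _ k2 (Real.exp_pos _).le (by positivity)
    exact mul_le_mul k0 k1 (Real.exp_pos _).le (by positivity)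
  rw [hf]
  calc Real.exp (-t * ‖ξ‖ ^ 2) * (A * L * Real.exp (-(ξ 0) ^ 2 - (ξ 1) ^ 2 - L ^ 2 * (ξ 2) ^ 2))
      = A * L * (Real.exp (-t * ‖ξ‖ ^ 2) *
          Real.exp (-(ξ 0) ^ 2 - (ξ 1) ^ 2 - L ^ 2 * (ξ 2) ^ 2)) := by ring
    _ ≤ A * L * ((216 * (1 / (1 + Real.sqrt (t + 1) * |ξ 0|) ^ 6)) *
        (216 * (1 / (1 + Real.sqrt (t + 1) * |ξ 1|) ^ 6)) *
        (216 * (1 / (1 + L * |ξ 2|) ^ 6))) :=
        mul_le_mul_of_nonneg_left (hexp.trans hprod) (by positivity)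
    _ = 216 ^ 3 * A * wt L t ξ := by
        unfold wt Wg
        rw [mul_pow, mul_pow]
        have p0 : (1 + Real.sqrt (t + 1) * |ξ 0|) ^ 6 ≠ 0 := by positivity
        have p1 : (1 + Real.sqrt (t + 1) * |ξ 1|) ^ 6 ≠ 0 := by positivity
        have p2 : (1 + L * |ξ 2|) ^ 6 ≠ 0 := by positivity
        field_simp

end Pool.Agent.W230.KG
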